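import Pool.Agent.Work.MP_52c914_al.Four
import Pool.Agent.Work.MP_52c914_al.Torus

set_option autoImplicit false

namespace Pool.Agent.Results.MP_52c914_al.FourSimples

open Pool.Agent.Work.MP_52c914_al

universe u

theorem result (K : Type u) [Field K] [IsAlgClosed K] [CharP K 3] :
    ∃ (L : Type u) (_ : LieRing L) (_ : LieAlgebra K L) (f : L → L) (χ : L →ₗ[K] K),
      Module.finrank K L = 8 ∧ IsPMap K 3 f ∧ maxToralRank K f = 1 ∧
      ∃ M : Fin 4 → ModuleCat.{u} (RedEnv K 3 f χ),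
        (∀ i, IsSimpleModule (RedEnv K 3 f χ) (M i)) ∧
        ∀ i j, i ≠ j → IsEmpty (M i ≃ₗ[RedEnv K 3 f χ] M j) := by
  obtain ⟨h1, h2, h3⟩ := main (K := K)
  exact ⟨G K, inferInstance, inferInstance, fm, chi K, h1, h2, maxToralRank_eq, h3⟩

end Pool.Agent.Results.MP_52c914_al.FourSimples
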